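import Mathlib
import Pool.Agent.Lib.MP_ce2de7_lc.Defs
import Pool.Agent.Lib.MP_ce2de7_lc.Basic

namespace Pool.Agent.Results.MP_ce2de7_lc.BelowSplitting

open Cardinal Pool.Agent.Lib.MP_ce2de7_lc

/-- There is no barely independent family over an infinite cardinal below `𝔰`. -/
theorem result : ∀ (X : Type), ℵ₀ ≤ #X → #X < splittingNumber →
    ¬ ∃ I : Set (Set X), BarelyIndependent I := by
  rintro X hX hs ⟨I, hI⟩
  have : Infinite X := Cardinal.infinite_iff.2 hX
  exact no_barely_of_lt_splitting hs I hI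

end Pool.Agent.Results.MP_ce2de7_lc.BelowSplitting
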