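import Mathlib
import Pool.Agent.Lib.Common.Forcing.Defs
import Pool.Agent.Lib.Common.Iter.Close
import Pool.Agent.Lib.MP_ce2de7_lc.ConDefs
import Pool.Agent.Lib.MP_ce2de7_lc.Link

set_option autoImplicit false

namespace Pool.Agent.Results.MP_ce2de7_lc.Consistent

open Pool.Agent.Lib.Common.Forcing Pool.Agent.Lib.MP_ce2de7_lc

/-- The negated form of Q1: there is a countable transitive model of ZFC in which `𝔯 = ω₁` and
there is no barely independent family over `ω₁`. -/
theorem result : ∃ M w : ZFSet.{0}, IsCTM M ∧ IsOmegaOne M w ∧ ReapingNumberIs M w ∧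
    ¬ ∃ I, BarelyIn M w I := by
  obtain ⟨P, _, ⟨p⟩, hP⟩ := Pool.Agent.Lib.Common.Iter.exists_nice
  exact exists_model hP p

end Pool.Agent.Results.MP_ce2de7_lc.Consistent
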