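import Mathlib
import Pool.Agent.Lib.MP_ce2de7_lc.Defs
import Pool.Agent.Lib.MP_ce2de7_lc.Basic

namespace Pool.Agent.Results.MP_ce2de7_lc.TailSplitting

open Cardinal Pool.Agent.Lib.MP_ce2de7_lc

/-- Over `ω₁`, a barely independent family exists iff there is an `ω₁`-indexed family of subsets
of `ω` such that every infinite subset of `ω` is split by all but countably many of them. -/
theorem result : ∀ (X : Type), #X = ℵ₁ →
    ((∃ I : Set (Set X), BarelyIndependent I) ↔
      ∃ a : X → Set ℕ, ∀ R : Set ℕ, R.Infinite → {x | ¬ Splits (a x) R}.Countable) := by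
  intro X hX
  have hcof : ℵ₀ < (#X).ord.cof := by
    rw [hX, isRegular_aleph_one.cof_ord]
    exact aleph0_lt_aleph_one
  simp only [countable_iff_lt_aleph_one, ← hX]
  exact ⟨fun ⟨_, hI⟩ => tail_of_barely hcof hI,
    fun ⟨_, ha⟩ => barely_of_tail (hcof.trans_le (Ordinal.cof_ord_le _)) ha⟩

end Pool.Agent.Results.MP_ce2de7_lc.TailSplitting
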